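import Pool.Agent.Lib.MP_2b9f9a_al.DL.All17

/-!
# The case of metabelian fixed points

In the situation of the question let `γ_{c+1}(C_G(H))` be abelian (for `c = 1`: `C_G(H)` is
metabelian).  Then `γ_{m+1}(G)` is abelian, where `m` depends only on the order of `H` and on `c`.
In particular the derived length of `G` is bounded in terms of `|H|` if the derived length of
`C_G(H)` is at most two.  In Mathlib the term `γ_{n+1}(C)` is `C.lowerCentralSeries n`.
-/

set_option autoImplicit false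

namespace Pool.Agent.Results.MP_2b9f9a_al.AbelianByNilpotent

theorem result :
    ∀ (h c : ℕ), ∃ m : ℕ, ∀ (G : Type) [Group G] [Finite G] (F H : Subgroup (MulAut G)),
      Group.IsNilpotent G →
      (∀ x ∈ H, ∀ y ∈ F, x * y * x⁻¹ ∈ F) →
      F ≠ ⊥ → H ≠ ⊥ →
      (∀ x ∈ H, x ≠ 1 → ∀ y ∈ F, x * y = y * x → y = 1) →
      (∀ y ∈ F, y ≠ 1 → ∀ g : G, y g = g → g = 1) →
      Nat.card H = h →
      (∀ C : Subgroup G, (∀ g : G, g ∈ C ↔ ∀ x ∈ H, x g = g) →
        ∀ x ∈ C.lowerCentralSeries c, ∀ y ∈ C.lowerCentralSeries c, x * y = y * x) →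
      ∀ x ∈ (⊤ : Subgroup G).lowerCentralSeries m, ∀ y ∈ (⊤ : Subgroup G).lowerCentralSeries m,
        x * y = y * x :=
  Pool.Agent.DL17.nil

end Pool.Agent.Results.MP_2b9f9a_al.AbelianByNilpotent
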