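import Pool.Agent.Lib.MP_2b9f9a_al.Frobenius

/-!
# The Lie ring form of the question on derived length

Let a group `G` act by automorphisms on a Lie ring `L`, and let `F` and `H` be subgroups of `G`
such that `F` is finite and nontrivial and no nontrivial element of `F` fixes a nonzero element
of `L`, `H` is nontrivial of order `h` and normalizes `F`, and no nontrivial element of `H`
commutes with a nontrivial element of `F`.  If the fixed points of `H` in `L` have derived length
at most `d`, then the derived length of `L` is at most a number `N` depending only on `h` and `d`.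
-/

set_option autoImplicit false

namespace Pool.Agent.Results.MP_2b9f9a_al.LieRings

theorem result :
    ∀ (h d : ℕ), ∃ N : ℕ, ∀ (L G : Type) [LieRing L] [Group G] [DistribMulAction G L]
      (F H : Subgroup G) [Finite F],
      (∀ (g : G) (x y : L), g • ⁅x, y⁆ = ⁅g • x, g • y⁆) →
      (∀ x ∈ H, ∀ y ∈ F, x * y * x⁻¹ ∈ F) →
      F ≠ ⊥ → H ≠ ⊥ →
      (∀ x ∈ H, x ≠ 1 → ∀ y ∈ F, x * y = y * x → y = 1) →
      (∀ y ∈ F, y ≠ 1 → ∀ v : L, y • v = v → v = 0) →
      Nat.card H = h →
      (∀ C : LieSubalgebra ℤ L, (∀ v : L, v ∈ C ↔ ∀ x ∈ H, x • v = v) →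
        LieAlgebra.derivedSeries ℤ C d = ⊥) →
      LieAlgebra.derivedSeries ℤ L N = ⊥ := by
  intro h d
  exact Pool.Agent.Lib.MP_2b9f9a_al.lie_frobenius h d

end Pool.Agent.Results.MP_2b9f9a_al.LieRings
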